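import Pool.Agent.D0H5.OP.Low

/-!
# Project OP (helper73), module BASE: stage zero
-/

set_option autoImplicit false

open Finset
open scoped BigOperators

namespace Pool.Agent.D0H5.OP

open Pool.Agent.D0H73.OP
open Pool.Agent.V1192.UOD (V)

noncomputable section

variable {p : ℕ} [Fact p.Prime] {N : ℕ → ℕ} {n : ℕ}

lemma cis_add_two_pi (θ : ℝ) : cis (θ + 2 * Real.pi) = cis θ := by
  unfold cis
  have : ((θ + 2 * Real.pi : ℝ) : ℂ) * Complex.I = (θ : ℂ) * Complex.I + 2 * Real.pi * Complex.I := by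
    push_cast
    ring
  rw [this, Complex.exp_add, Complex.exp_two_pi_mul_I, mul_one]

lemma cis_continuous : Continuous cis := by
  unfold cis
  fun_prop

lemma cis_norm (θ : ℝ) : ‖cis θ‖ = 1 := by
  unfold cis
  exact Complex.norm_exp_ofReal_mul_I θ

lemma sv_continuous (k : ℕ) (i : Fin n) : Continuous fun q : ℂ × ℂ => sv k q.1 q.2 i := by
  unfold sv
  split_ifs
  · exact continuous_const
  · exact continuous_fst
  · exact continuous_snd
  · exact continuous_const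

lemma sv_comp_continuous {T : Type} [TopologicalSpace T] (k : ℕ) (i : Fin n) {u v : T → ℂ} (hu : Continuous u)
    (hv : Continuous v) : Continuous fun θ => sv k (u θ) (v θ) i := by
  unfold sv
  split_ifs
  · exact continuous_const
  · exact hu
  · exact hv
  · exact continuous_const

/-- the functional depends continuously on the disc variables -/
lemma ap_Ph_continuous {T : Type} [TopologicalSpace T] (x : H p N n → ℂ) (d : (i : Fin n) → V p (N i) → ℕ)
    (χ : H p N n → ℂ) (k : ℕ) {u v : T → ℂ} (hu : Continuous u) (hv : Continuous v) :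
    Continuous fun θ => ap x (Ph d χ (sv k (u θ) (v θ))) := by
  unfold ap Ph
  refine continuous_finsetSum _ fun g _ => ?_
  refine continuous_const.mul (continuous_const.mul ?_)
  refine continuous_finsetProd _ fun i _ => ?_
  exact (sv_comp_continuous k i hu hv).pow _

/-- the trivial character -/
def one1 (p : ℕ) (N : ℕ → ℕ) (n : ℕ) : H p N n → ℂ := fun _ => 1

lemma one_chr : IsChr 0 (one1 p N n) := by
  refine ⟨?_, ?_, ?_⟩
  · intro g h
    unfold one1
    rw [mul_one]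
  · intro g
    unfold one1
    rw [norm_one]
  · intro g _
    rfl

lemma tt_one : tt 0 (one1 p N n) = 0 := by
  unfold tt
  rw [Finset.filter_false_of_mem (by intro i _; omega), Finset.sum_empty]

lemma base_close (hNUM : S_NUM) (hAAF : S_AAF) (hVAL : S_VAL) {l : ℕ} (x y : H p N (l + 2) → ℂ)
    (d : (i : Fin (l + 2)) → V p (N i) → ℕ) (m : (i : Fin (l + 2)) → V p (N i) → ℝ)
    (hN : ∀ i, 0 < N i) (hD : Dat x y d m) (hF : Fac l x y) (θ : ℝ) :
    ‖ap x (Ph d (one1 p N (l + 2)) (sv 0 (cis θ / 2) 0)) - cis θ / 2‖ < ‖cis θ / 2‖ := by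
  obtain ⟨hw, ht, -, -, -, -⟩ := hNUM p
  have hz : ‖cis θ / 2‖ ≤ 1 / 2 := by
    rw [norm_div, cis_norm]
    simp
  have hζ : ‖(0 : ℂ)‖ ≤ 1 / 2 := by
    rw [norm_zero]
    norm_num
  have h1 := aa_value hNUM hAAF hVAL d m hN hD.pkg (Nat.zero_le l) one_chr hz hζ
  have h2 := hF.near (Ph d (one1 p N (l + 2)) (sv 0 (cis θ / 2) 0))
    (Ph_norm one_chr d (fun i hi => sv_lt hi) (fun i hi => sv_norm hz hζ hi))
  have hw0 : w p 0 = 1 := by unfold w; rfl
  rw [tt_one, hw0] at h1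
  have h3 : (0 : ℂ) + ((1 : ℝ) : ℂ) * (cis θ / 2) + (w p (0 + 1) : ℂ) * 0 = cis θ / 2 := by
    push_cast
    ring
  rw [h3] at h1
  have h4 : tau p 0 ≤ 1 / 10 ^ 10 := by
    unfold tau
    have := hw (0 + 1)
    exact div_le_div_of_nonneg_right (pow_le_one₀ this.1.le this.2.1) (by norm_num)
  have h5 : ‖cis θ / 2‖ = 1 / 2 := by
    rw [norm_div, cis_norm]
    simp
  rw [h5]
  generalize ap x (Ph d (one1 p N (l + 2)) (sv 0 (cis θ / 2) 0)) = X at h2 ⊢
  generalize ap aa (Ph d (one1 p N (l + 2)) (sv 0 (cis θ / 2) 0)) = Y at h1 h2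
  generalize cis θ / 2 = Z at h1 ⊢
  have h6 : X - Z = (X - Y) + (Y - Z) := by ring
  rw [h6]
  refine lt_of_le_of_lt (norm_add_le _ _) ?_
  have h7 : (1 : ℝ) / 10 ^ 10 ≤ 1 / 100 := by norm_num
  linarith

lemma base_wd (T1 : S_TOP1) (T4 : S_TOP4) (hNUM : S_NUM) (hAAF : S_AAF) (hVAL : S_VAL) {l : ℕ}
    (x y : H p N (l + 2) → ℂ) (d : (i : Fin (l + 2)) → V p (N i) → ℕ)
    (m : (i : Fin (l + 2)) → V p (N i) → ℝ) (hN : ∀ i, 0 < N i) (hD : Dat x y d m) (hF : Fac l x y) :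
    Wd (fun θ => ap x (Ph d (one1 p N (l + 2)) (sv 0 (cis θ / 2) 0))) := by
  have hcont : Continuous fun θ : ℝ => ap x (Ph d (one1 p N (l + 2)) (sv 0 (cis θ / 2) 0)) :=
    ap_Ph_continuous x d (one1 p N (l + 2)) 0 (cis_continuous.div_const 2) continuous_const
  refine T1 (fun θ => cis θ / 2) _ (cis_continuous.div_const _) hcont ?_ ?_ ?_ T4
  · intro θ
    simp only [cis_add_two_pi]
  · intro θ
    simp only [cis_add_two_pi]
  · intro θ
    exact base_close hNUM hAAF hVAL x y d m hN hD hF θ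

lemma base_tt (hNUM : S_NUM) (l : ℕ) :
    ∃ r : ℝ, tt 0 (one1 p N (l + 2)) = (r : ℂ) ∧ |r| ≤ w p 0 / (8 * p) := by
  refine ⟨0, ?_, ?_⟩
  · rw [tt_one, Complex.ofReal_zero]
  · rw [abs_zero]
    have := ((hNUM p).1 0).1
    exact div_nonneg this.le (by positivity)

lemma base_stage (T1 : S_TOP1) (T4 : S_TOP4) (hNUM : S_NUM) (hAAF : S_AAF) (hVAL : S_VAL) {l : ℕ}
    (x y : H p N (l + 2) → ℂ) (d : (i : Fin (l + 2)) → V p (N i) → ℕ)
    (m : (i : Fin (l + 2)) → V p (N i) → ℝ) (hN : ∀ i, 0 < N i) (hD : Dat x y d m) (hF : Fac l x y) :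
    Stage l x d 0 :=
  ⟨one1 p N (l + 2), one_chr, base_tt hNUM l, base_wd T1 T4 hNUM hAAF hVAL x y d m hN hD hF⟩

theorem t_BASE : S_TOP → S_NUM → S_AAF → S_VAL → S_BASE :=
  fun hTOP hNUM hAAF hVAL _ _ _ _ x y d m hN hD hF =>
    base_stage hTOP.1 hTOP.2.2.2 hNUM hAAF hVAL x y d m hN hD hF

end

end Pool.Agent.D0H5.OP
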