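import Pool.Agent.D0H73.OP.Stm

/-!
# Project OP (helper73), module LOW: the product formula at stage `k`
-/

set_option autoImplicit false

open Finset
open scoped BigOperators

namespace Pool.Agent.D0H5.OP

open Pool.Agent.D0H73.OP
open Pool.Agent.V1192.UOD (V)

noncomputable section

variable {p : ℕ} [Fact p.Prime] {N : ℕ → ℕ} {n : ℕ}

lemma sv_lt {k : ℕ} {z ζ : ℂ} {i : Fin n} (h : (i : ℕ) < k) : sv k z ζ i = 1 := by
  unfold sv
  rw [if_pos h]

lemma sv_norm {k : ℕ} {z ζ : ℂ} (hz : ‖z‖ ≤ 1 / 2) (hζ : ‖ζ‖ ≤ 1 / 2) {i : Fin n} (h : k ≤ (i : ℕ)) :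
    ‖sv k z ζ i‖ ≤ 1 / 2 := by
  unfold sv
  rw [if_neg (by omega)]
  split_ifs
  · exact hz
  · exact hζ
  · rw [norm_zero]; norm_num

lemma Ph_norm {k : ℕ} {χ : H p N n → ℂ} (hχ : IsChr k χ) (d : (i : Fin n) → V p (N i) → ℕ) {s : Fin n → ℂ}
    (h1 : ∀ i : Fin n, (i : ℕ) < k → s i = 1) (h2 : ∀ i : Fin n, k ≤ (i : ℕ) → ‖s i‖ ≤ 1 / 2) (g : H p N n) :
    ‖Ph d χ s g‖ ≤ 1 := by
  unfold Ph
  rw [norm_mul, hχ.norm g, one_mul, norm_prod]
  apply Finset.prod_le_one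
  · intro i _
    exact norm_nonneg _
  · intro i _
    rw [norm_pow]
    apply pow_le_one₀ (norm_nonneg _)
    rcases lt_or_ge (i : ℕ) k with h | h
    · rw [h1 i h, norm_one]
    · linarith [h2 i h]

lemma ap_norm (b F : H p N n → ℂ) (hF : ∀ g, ‖F g‖ ≤ 1) : ‖ap b F‖ ≤ ∑ g, ‖b g‖ := by
  unfold ap
  refine (norm_sum_le _ _).trans (Finset.sum_le_sum fun g _ => ?_)
  rw [norm_mul]
  exact mul_le_of_le_one_right (norm_nonneg _) (hF g)

/-- the value of `∑ w_i ξ_i` at the functional -/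
lemma aa_value (hNUM : S_NUM) (hAAF : S_AAF) (hVAL : S_VAL) {l : ℕ}
    (d : (i : Fin (l + 2)) → V p (N i) → ℕ) (m : (i : Fin (l + 2)) → V p (N i) → ℝ)
    (hN : ∀ i, 0 < N i) (hpkg : ∀ i, Pkg (m i) (tau p i) (d i)) {k : ℕ} (hk : k ≤ l)
    {χ : H p N (l + 2) → ℂ} (hχ : IsChr k χ) {z ζ : ℂ} (hz : ‖z‖ ≤ 1 / 2) (hζ : ‖ζ‖ ≤ 1 / 2) :
    ‖ap aa (Ph d χ (sv k z ζ)) - (tt k χ + w p k * z + w p (k + 1) * ζ)‖ ≤ 4 * tau p k := by
  obtain ⟨hw, ht, hts, -, -, -⟩ := hNUM p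
  obtain ⟨A1, A2, A3, -⟩ := hAAF p N (l + 2) hN
  obtain ⟨V1, V2⟩ := hVAL p N (l + 2) d m (fun i => tau p i) k χ (sv k z ζ) hN hpkg hχ
    (fun i hi => sv_lt hi) (fun i hi => sv_norm hz hζ hi)
  set Φ := Ph d χ (sv k z ζ) with hΦ
  set k' : Fin (l + 2) := ⟨k, by omega⟩ with hk'
  set k'' : Fin (l + 2) := ⟨k + 1, by omega⟩ with hk''
  have hB : tt k χ + w p k * z + w p (k + 1) * ζ =
      ∑ i : Fin (l + 2), (w p i : ℂ) * (if (i : ℕ) < k then Ex i χ else sv k z ζ i) := by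
    have e1 : (w p k : ℂ) * z = ∑ i : Fin (l + 2), if i = k' then (w p k : ℂ) * z else 0 := by
      rw [Finset.sum_ite_eq' univ k' (fun _ => (w p k : ℂ) * z), if_pos (mem_univ _)]
    have e2 : (w p (k + 1) : ℂ) * ζ = ∑ i : Fin (l + 2), if i = k'' then (w p (k + 1) : ℂ) * ζ else 0 := by
      rw [Finset.sum_ite_eq' univ k'' (fun _ => (w p (k + 1) : ℂ) * ζ), if_pos (mem_univ _)]
    rw [e1, e2]
    unfold tt
    rw [Finset.sum_filter, ← Finset.sum_add_distrib, ← Finset.sum_add_distrib]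
    refine Finset.sum_congr rfl fun i _ => ?_
    by_cases hi : (i : ℕ) < k
    · have n1 : i ≠ k' := fun h => by rw [h] at hi; simp [hk'] at hi
      have n2 : i ≠ k'' := fun h => by rw [h] at hi; simp [hk''] at hi
      rw [if_pos hi, if_neg n1, if_neg n2, if_pos hi, add_zero, add_zero]
    · rw [if_neg hi, if_neg hi]
      unfold sv
      rw [if_neg hi]
      by_cases h1 : (i : ℕ) = k
      · have n1 : i = k' := Fin.ext h1
        have n2 : i ≠ k'' := fun h => by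
          have := congrArg Fin.val h
          rw [hk''] at this
          simp only at this
          omega
        rw [if_pos n1, if_neg n2, if_pos h1, h1]
        ring
      · have n1 : i ≠ k' := fun h => h1 (by rw [h])
        rw [if_neg n1, if_neg h1]
        by_cases h2 : (i : ℕ) = k + 1
        · have n2 : i = k'' := Fin.ext h2
          rw [if_pos n2, if_pos h2, h2]
          ring
        · have n2 : i ≠ k'' := fun h => h2 (by rw [h])
          rw [if_neg n2, if_neg h2]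
          ring
  rw [A1 Φ, hB, ← Finset.sum_sub_distrib]
  calc ‖∑ i : Fin (l + 2), ((w p i : ℂ) * Ex i Φ - (w p i : ℂ) * (if (i : ℕ) < k then Ex i χ else sv k z ζ i))‖
      ≤ ∑ i : Fin (l + 2), (if k ≤ (i : ℕ) then 2 * tau p i else 0) := by
        refine (norm_sum_le _ _).trans (Finset.sum_le_sum fun i _ => ?_)
        rw [← mul_sub, norm_mul, Complex.norm_real, Real.norm_of_nonneg (hw i).1.le]
        by_cases hi : (i : ℕ) < k
        · rw [if_pos hi, if_neg (by omega), V2 i hi, sub_self, norm_zero, mul_zero]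
        · rw [if_neg hi, if_pos (by omega)]
          have h1 := V1 i (by omega)
          calc w p i * ‖Ex i Φ - sv k z ζ i‖ ≤ 1 * ‖Ex i Φ - sv k z ζ i‖ :=
                mul_le_mul_of_nonneg_right (hw i).2.1 (norm_nonneg _)
            _ ≤ _ := by rw [one_mul]; exact h1
    _ = 2 * ∑ i ∈ univ.filter (fun i : Fin (l + 2) => k ≤ (i : ℕ)), tau p i := by
        rw [Finset.mul_sum, Finset.sum_filter]
    _ ≤ 2 * (2 * tau p k) := mul_le_mul_of_nonneg_left (hts k (l + 2)) (by norm_num)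
    _ = 4 * tau p k := by ring

/-- weights and tolerances are decreasing -/
lemma w_anti (hNUM : S_NUM) {a b : ℕ} (h : a ≤ b) : w p b ≤ w p a := by
  obtain ⟨hw, -⟩ := hNUM p
  induction b, h using Nat.le_induction with
  | base => exact le_rfl
  | succ b _ ih => linarith [(hw b).1, (hw b).2.2, (hw b).1]

lemma tau_anti (hNUM : S_NUM) {a b : ℕ} (h : a ≤ b) : tau p b ≤ tau p a := by
  obtain ⟨-, ht, -⟩ := hNUM p
  induction b, h using Nat.le_induction with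
  | base => exact le_rfl
  | succ b _ ih => linarith [(ht b).1, (ht b).2.2]

theorem t_LOW : S_NUM → S_AAF → S_NM → S_VAL → S_LOW := by
  intro hNUM hAAF hNM hVAL p _ N l x y d m hN hD hF k χ hk hχ z ζ hz hζ
  obtain ⟨hw, ht, hts, -, -, -⟩ := hNUM p
  obtain ⟨A1, A2, A3, -⟩ := hAAF p N (l + 2) hN
  have s1 : ∀ i : Fin (l + 2), (i : ℕ) < k → sv k z ζ i = 1 := fun i hi => sv_lt hi
  have s2 : ∀ i : Fin (l + 2), k ≤ (i : ℕ) → ‖sv k z ζ i‖ ≤ 1 / 2 := fun i hi => sv_norm hz hζ hi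
  have V1 := (hVAL p N (l + 2) d m (fun i => tau p i) k χ (sv k z ζ) hN hD.pkg hχ s1 s2).1
  have hval := aa_value hNUM hAAF hVAL d m hN hD.pkg hk hχ hz hζ
  have hPh : ∀ g, ‖Ph d χ (sv k z ζ) g‖ ≤ 1 := Ph_norm hχ d s1 s2
  have hx : ∀ i v, ∑ g ∈ (univ : Finset (H p N (l + 2))).filter (fun g => g i = v), ‖x g‖ ≤ m i v := by
    intro i v
    convert hD.mx i v
  have hy : ∀ i v, ∑ g ∈ (univ : Finset (H p N (l + 2))).filter (fun g => g i = v), ‖y g‖ ≤ m i v := by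
    intro i v
    convert hD.my i v
  have ha : ∀ i v, ∑ g ∈ (univ : Finset (H p N (l + 2))).filter (fun g => g i = v),
      ‖(aa g : ℂ)‖ ≤ m i v := by
    intro i v
    convert hD.ma i v
  have n1 := hNM p N (l + 2) d m (fun i => tau p i) x y k χ (sv k z ζ) hD.pkg hx hy hχ s1 s2
  have n2 := hNM p N (l + 2) d m (fun i => tau p i) aa aa k χ (sv k z ζ) hD.pkg ha ha hχ s1 s2
  have hsum := hts k (l + 2)
  have c1 := hF.prod (Ph d χ (sv k z ζ)) hPh
  set Φ := Ph d χ (sv k z ζ) with hΦ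
  have e1 : ‖Ex (Fin.last (l + 1)) Φ - (if k = l then ζ else 0)‖ ≤ 2 * tau p (l + 1) := by
    have h1 := V1 (Fin.last (l + 1)) (by rw [Fin.val_last]; omega)
    have h2 : sv k z ζ (Fin.last (l + 1)) = if k = l then ζ else 0 := by
      unfold sv
      rw [Fin.val_last, if_neg (by omega), if_neg (by omega)]
      by_cases h : k = l
      · rw [if_pos (by omega), if_pos h]
      · rw [if_neg (by omega), if_neg h]
    rw [h2] at h1
    exact h1
  have hA : ‖ap aa Φ‖ ≤ 2 := (ap_norm aa Φ hPh).trans A2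
  set B : ℂ := tt k χ + w p k * z + w p (k + 1) * ζ with hB
  have htk := ht k
  have hBn : ‖B‖ ≤ 6 := by
    have h1 : ‖B‖ ≤ ‖ap aa Φ‖ + ‖ap aa Φ - B‖ := by
      have h2 : B = ap aa Φ - (ap aa Φ - B) := by ring
      calc ‖B‖ = ‖ap aa Φ - (ap aa Φ - B)‖ := by rw [← h2]
        _ ≤ _ := norm_sub_le _ _
    linarith [htk.2.1]
  have sq : ‖ap aa Φ * ap aa Φ - B ^ 2‖ ≤ 32 * tau p k := by
    have h1 : ap aa Φ * ap aa Φ - B ^ 2 = (ap aa Φ - B) * (ap aa Φ + B) := by ring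
    rw [h1, norm_mul]
    have h2 : ‖ap aa Φ + B‖ ≤ 8 := by linarith [norm_add_le (ap aa Φ) B]
    calc ‖ap aa Φ - B‖ * ‖ap aa Φ + B‖ ≤ (4 * tau p k) * 8 :=
          mul_le_mul hval h2 (norm_nonneg _) (by linarith [htk.1])
      _ = 32 * tau p k := by ring
  have hwl := hw l
  have last : ‖((w p l ^ 2 / 100 : ℝ) : ℂ) * Ex (Fin.last (l + 1)) Φ -
      (if k = l then ((w p l ^ 2 / 100 : ℝ) : ℂ) * ζ else 0)‖ ≤ tau p k := by
    have h1 : ((w p l ^ 2 / 100 : ℝ) : ℂ) * Ex (Fin.last (l + 1)) Φ -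
        (if k = l then ((w p l ^ 2 / 100 : ℝ) : ℂ) * ζ else 0) =
        ((w p l ^ 2 / 100 : ℝ) : ℂ) * (Ex (Fin.last (l + 1)) Φ - (if k = l then ζ else 0)) := by
      split_ifs <;> ring
    rw [h1, norm_mul, Complex.norm_real, Real.norm_of_nonneg (by positivity)]
    have h2 : w p l ^ 2 / 100 ≤ 1 / 100 := by
      have : w p l ^ 2 ≤ 1 := pow_le_one₀ hwl.1.le hwl.2.1
      linarith
    have h3 : tau p (l + 1) ≤ tau p k := tau_anti hNUM (by omega)
    calc w p l ^ 2 / 100 * ‖Ex (Fin.last (l + 1)) Φ - (if k = l then ζ else 0)‖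
        ≤ 1 / 100 * (2 * tau p (l + 1)) := mul_le_mul h2 e1 (norm_nonneg _) (by norm_num)
      _ ≤ tau p k := by linarith [htk.1]
  -- assembly
  have key : ap x Φ * ap y Φ - (B ^ 2 + (if k = l then ((w p l ^ 2 / 100 : ℝ) : ℂ) * ζ else 0)) =
      -(ap2 x y Φ - ap x Φ * ap y Φ) +
      (ap2 x y Φ - (ap2 aa aa Φ + ((w p l ^ 2 / 100 : ℝ) : ℂ) * Ex (Fin.last (l + 1)) Φ)) +
      (ap2 aa aa Φ - ap aa Φ * ap aa Φ) + (ap aa Φ * ap aa Φ - B ^ 2) +
      (((w p l ^ 2 / 100 : ℝ) : ℂ) * Ex (Fin.last (l + 1)) Φ -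
        (if k = l then ((w p l ^ 2 / 100 : ℝ) : ℂ) * ζ else 0)) := by ring
  have hwk : w p (l + 1) ≤ w p (k + 1) := w_anti hNUM (by omega)
  have hwl1 := hw (l + 1)
  have hwk1 := hw (k + 1)
  have hw2 : w p (l + 1) ^ 2 ≤ w p (k + 1) ^ 2 := pow_le_pow_left₀ hwl1.1.le hwk 2
  have htau : tau p k ≤ w p (k + 1) ^ 2 / 10 ^ 10 := by
    unfold tau
    have h1 : w p (k + 1) ^ 4 ≤ w p (k + 1) ^ 2 := pow_le_pow_of_le_one hwk1.1.le hwk1.2.1 (by norm_num)
    exact div_le_div_of_nonneg_right h1 (by norm_num)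
  have tri : ‖ap x Φ * ap y Φ - (B ^ 2 + (if k = l then ((w p l ^ 2 / 100 : ℝ) : ℂ) * ζ else 0))‖ ≤
      ‖ap2 x y Φ - ap x Φ * ap y Φ‖ +
      ‖ap2 x y Φ - (ap2 aa aa Φ + ((w p l ^ 2 / 100 : ℝ) : ℂ) * Ex (Fin.last (l + 1)) Φ)‖ +
      ‖ap2 aa aa Φ - ap aa Φ * ap aa Φ‖ + ‖ap aa Φ * ap aa Φ - B ^ 2‖ +
      ‖((w p l ^ 2 / 100 : ℝ) : ℂ) * Ex (Fin.last (l + 1)) Φ -
        (if k = l then ((w p l ^ 2 / 100 : ℝ) : ℂ) * ζ else 0)‖ := by
    rw [key]
    refine (norm_add_le _ _).trans (add_le_add_left ?_ _)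
    refine (norm_add_le _ _).trans (add_le_add_left ?_ _)
    refine (norm_add_le _ _).trans (add_le_add_left ?_ _)
    refine (norm_add_le _ _).trans (add_le_add_left ?_ _)
    rw [norm_neg]
  have hpos : 0 ≤ w p (k + 1) ^ 2 := by positivity
  linarith

end

end Pool.Agent.D0H5.OP
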